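import Pool.Agent.W719.AR.Rt

set_option autoImplicit false

namespace Pool.Agent.W719.AR

open Finset Filter Topology Matrix
open Pool.Agent.H550R3.Jones Pool.Agent.W711.HT
open Pool.Agent.W719.BS (rot kw)
open scoped Real

theorem lmm_ps (N c : ℕ) (hc : c < N) : ps N (N - 1 - c) = -ps N c := by
  unfold ps
  have h : ((N - 1 - c : ℕ) : ℝ) = (N : ℝ) - 1 - c := by
    rw [Nat.cast_sub (by omega), Nat.cast_sub (by omega), Nat.cast_one]
  rw [h]
  ring

theorem lmm : S_LMM := by
  intro N x y F G hN hx hy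
  refine ⟨hx.an.mul hy.an, fun ψ => ?_, fun c hc => ?_, fun c hc hcN => ?_⟩
  · rw [hx.ev, hy.ev]
  · exact (hx.l0 c hc).mul (hy.l0 c hc)
  · have hc' : N - 1 - c < N := by omega
    have h1 := (hx.l0 c hc).mul (hy.l1 c hc hcN)
    have h2 := (hy.l0 (N - 1 - c) hc').mul (hx.l1 c hc hcN)
    have h3 := h1.add h2
    have e1 : (((ps N (N - 1 - c) : ℝ)) : ℂ) = -((ps N c : ℝ) : ℂ) := by
      rw [lmm_ps N c hc]
      push_cast
      ring
    rw [e1, hy.ev] at h3
    have e2 : deriv (fun ψ => F ψ * G ψ) (ps N c) =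
        deriv F (ps N c) * G (ps N c) + F (ps N c) * deriv G (ps N c) :=
      deriv_fun_mul (hx.an _) (hy.an _)
    rw [e2]
    refine (h3.congr fun v => ?_).trans (le_of_eq ?_)
    · ring
    · congr 1
      ring

end Pool.Agent.W719.AR
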