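import Pool.Agent.W719.AR.Ana

set_option autoImplicit false

namespace Pool.Agent.W719.AR

open Finset Filter Topology Metric
open Pool.Agent.W711.HT
open scoped Real

theorem prd : S_PRD := by
  intro ρ τ κ c s dl hK ε₀ D hε hD
  have hκ : 0 < κ := hK.hκ.1
  have hDr : (0 : ℝ) < D := by exact_mod_cast hD
  constructor
  · refine ⟨fun N => differentiable_const _, fun N ψ => rfl, by simp, differentiableOn_const _,
      fun ψ _ => rfl, fun ψ _ => by simp, ?_, ?_, ?_⟩
    · intro ε he
      refine Eventually.of_forall fun N z _ => ⟨one_ne_zero, ?_⟩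
      have h1 : (0 : ℝ) ≤ ε * N := mul_nonneg he.le (Nat.cast_nonneg N)
      simpa using h1
    · refine Eventually.of_forall fun N x y _ _ => ?_
      simp
    · intro h
      omega
  · intro t X Y F G hX hY
    refine ⟨fun N => (hX.an N).mul (hY.an N), fun N ψ => ?_, ?_, hX.Fan.add hY.Fan,
      fun ψ hψ => ?_, fun ψ hψ => ?_, ?_, ?_, ?_⟩
    · rw [hX.ev, hY.ev]
    · rw [Complex.add_re]
      exact add_nonneg hX.pos hY.pos
    · rw [hX.Fev ψ hψ, hY.Fev ψ hψ]
    · have h1 := hX.Fcl ψ hψ
      have h2 := hY.Fcl ψ hψ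
      have e1 : F ψ + G ψ - (F 0 + G 0) - ((t + 1 : ℕ) : ℂ) * (s 0 ψ - s 0 0) =
          (F ψ - F 0 - t * (s 0 ψ - s 0 0)) + (G ψ - G 0 - ((1 : ℕ) : ℂ) * (s 0 ψ - s 0 0)) := by
        push_cast
        ring
      rw [e1]
      refine (norm_add_le _ _).trans ((add_le_add h1 h2).trans (le_of_eq ?_))
      push_cast
      ring
    · intro ε he
      filter_upwards [hX.mw (ε / 2) (by positivity), hY.mw (ε / 2) (by positivity)] with N h1 h2
      intro z hz
      obtain ⟨hx0, hx1⟩ := h1 z hz
      obtain ⟨hy0, hy1⟩ := h2 z hz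
      refine ⟨mul_ne_zero hx0 hy0, ?_⟩
      rw [norm_mul, Real.log_mul (norm_ne_zero_iff.mpr hx0) (norm_ne_zero_iff.mpr hy0),
        Complex.add_re]
      have e1 : Real.log ‖X N z‖ + Real.log ‖Y N z‖ - (N : ℝ) * ((F z).re + (G z).re) =
          (Real.log ‖X N z‖ - N * (F z).re) + (Real.log ‖Y N z‖ - N * (G z).re) := by ring
      rw [e1]
      refine (abs_add_le _ _).trans ((add_le_add hx1 hy1).trans (le_of_eq ?_))
      ring
    · filter_upwards [hX.gl, hY.gl] with N h1 h2
      intro x y hx hy
      rw [norm_mul]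
      refine (mul_le_mul (h1 x y hx hy) (h2 x y hx hy) (norm_nonneg _) (Real.exp_pos _).le).trans
        (le_of_eq ?_)
      rw [← Real.exp_add, Complex.add_re]
      congr 1
      push_cast
      ring
    · intro _
      rcases Nat.eq_zero_or_pos t with h0 | h0
      · subst h0
        filter_upwards [hX.gl, hY.gl1 le_rfl] with N h1 h2
        intro x y hx hx' hy
        rw [norm_mul]
        refine (mul_le_mul (h1 x y hx' hy) (h2 x y hx hx' hy) (norm_nonneg _)
          (Real.exp_pos _).le).trans (le_of_eq ?_)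
        rw [← Real.exp_add, Complex.add_re]
        congr 1
        push_cast
        ring
      · filter_upwards [hX.gl1 h0, hY.gl1 le_rfl] with N h1 h2
        intro x y hx hx' hy
        rw [norm_mul]
        refine (mul_le_mul (h1 x y hx hx' hy) (h2 x y hx hx' hy) (norm_nonneg _)
          (Real.exp_pos _).le).trans ?_
        rw [← Real.exp_add, Complex.add_re]
        apply Real.exp_le_exp.mpr
        have h3 : (0 : ℝ) ≤ N * κ := mul_nonneg (Nat.cast_nonneg N) hκ.le
        nlinarith

end Pool.Agent.W719.AR
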